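import Mathlib
import Pool.Agent.Lib.helper23.BLC

set_option autoImplicit false

namespace Pool.Agent.Results.MP_2139d9_an.Main

open Pool.Agent.Lib.helper23.BL

theorem result : Projective ℝ ∧ Projective EllOne ∧ (∃ e : ℝ, IsTopUnit e) ∧
    (∃ e : EllOne, IsTopUnit e) ∧ ¬ Projective (ℝ × EllOne) :=
  ⟨real_projective, ellOne_projective, ⟨1, real_unit⟩, ellOne_unit,
    fun h => not_semi_prod h.semi⟩

end Pool.Agent.Results.MP_2139d9_an.Main
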